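import Pool.Agent.R612.IS.StepD

/-!
# No structure is strictly between `(ℤ; +)` and `(ℤ; +, C_α)`

Every set definable in `(ℤ; +, C_α)` is a union of classes of an equivalence relation given by a
modulus and by the signs of finitely many rational linear combinations of `1` and of functions
`fract (q(x) α)`, `q` a rational affine form. If, for every unary set of an intermediate structure,
there is no pair of windows (intervals of values of `fract (z α)`) such that all the `z` of the
first and none of the `z` of the second are in the set, then an induction on the number of variables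
shows that all sets of the structure are definable in `(ℤ; +)`. Otherwise the structure defines a
set `{z | f (z α)}` with `f` a nonconstant periodic step function. The group of periods of `f` is
finite modulo `1`; translates of the set and residue classes define small neighbourhoods of `0`, a
jump of `f` defines the order near `0`, and from this one gets the cyclic order.
-/

set_option autoImplicit false

universe u v u' v'

namespace Pool.Agent.Results.MP_340ce7_lc.NoIntermediate

open FirstOrder FirstOrder.Language

/-- `a α`, `b α`, `c α` are in positive cyclic order modulo `1`. -/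
def C (α : ℝ) (a b c : ℤ) : Prop :=
  (Int.fract (a * α) < Int.fract (b * α) ∧ Int.fract (b * α) < Int.fract (c * α)) ∨
  (Int.fract (b * α) < Int.fract (c * α) ∧ Int.fract (c * α) < Int.fract (a * α)) ∨
  (Int.fract (c * α) < Int.fract (a * α) ∧ Int.fract (a * α) < Int.fract (b * α))

/-- One binary function symbol. -/
inductive Fn : ℕ → Type
  | add : Fn 2

/-- One ternary relation symbol. -/
inductive Rl : ℕ → Type
  | cyc : Rl 3

/-- The language with one binary function symbol. -/
abbrev LangPlus : FirstOrder.Language.{0, 0} := ⟨Fn, fun _ => Empty⟩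

/-- The language with one binary function symbol and one ternary relation symbol. -/
abbrev LangCyc : FirstOrder.Language.{0, 0} := ⟨Fn, Rl⟩

/-- The structure `(ℤ; +)`. -/
abbrev strPlus : LangPlus.Structure ℤ where
  funMap := fun {_} f v => match f with
    | Fn.add => v 0 + v 1
  RelMap := fun {_} r _ => Empty.elim r

/-- The structure `(ℤ; +, C_α)`. -/
abbrev strCyc (α : ℝ) : LangCyc.Structure ℤ where
  funMap := fun {_} f v => match f with
    | Fn.add => v 0 + v 1
  RelMap := fun {_} r v => match r with
    | Rl.cyc => C α (v 0) (v 1) (v 2)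

/-- The set `s ⊆ ℤ ^ n` is definable with parameters in the structure `S` on `ℤ`. -/
def Def (L : FirstOrder.Language.{u, v}) (S : L.Structure ℤ) {n : ℕ} (s : Set (Fin n → ℤ)) : Prop :=
  @Set.Definable ℤ Set.univ L S (Fin n) s

/-- The structures `S` and `S'` on `ℤ` have the same definable sets. -/
def Interdefinable (L : FirstOrder.Language.{u, v}) (S : L.Structure ℤ)
    (L' : FirstOrder.Language.{u', v'}) (S' : L'.Structure ℤ) : Prop :=
  ∀ (n : ℕ) (s : Set (Fin n → ℤ)), Def L S s ↔ Def L' S' s

/-- `S` is an intermediate structure between `(ℤ; +)` and `(ℤ; +, C_α)`. -/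
def Intermediate (α : ℝ) (L : FirstOrder.Language.{u, v}) (S : L.Structure ℤ) : Prop :=
  (∀ (n : ℕ) (s : Set (Fin n → ℤ)), Def LangPlus strPlus s → Def L S s) ∧
    (∀ (n : ℕ) (s : Set (Fin n → ℤ)), Def L S s → Def LangCyc (strCyc α) s)

theorem add_def : Def LangPlus strPlus {x : Fin 3 → ℤ | x 0 + x 1 = x 2} := by
  let _ : LangPlus.Structure ℤ := strPlus
  refine Set.Definable.mono (A := ∅) ?_ (Set.empty_subset _)
  refine Set.empty_definable_iff.2
    ⟨Term.equal (Term.func (Fn.add : LangPlus.Functions 2) ![Term.var 0, Term.var 1])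
      (Term.var 2), ?_⟩
  ext x
  exact Iff.rfl

/-- For every irrational `α`, every intermediate structure between `(ℤ; +)` and `(ℤ; +, C_α)` is
interdefinable with `(ℤ; +)` or with `(ℤ; +, C_α)`. -/
theorem result (α : ℝ) (hα : Irrational α) (L : FirstOrder.Language.{u, v}) (S : L.Structure ℤ)
    (hS : Intermediate α L S) :
    Interdefinable L S LangPlus strPlus ∨ Interdefinable L S LangCyc (strCyc α) := by
  obtain ⟨h1, h2⟩ := hS
  have hD : Pool.Agent.R612.IS.DClass fun ι s => @Set.Definable ℤ Set.univ L S ι s :=
    @Pool.Agent.R612.IS.dclass_definable L S (h1 3 _ add_def)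
  have hD' : Pool.Agent.R612.IS.DClass fun ι s => @Set.Definable ℤ Set.univ LangPlus strPlus ι s :=
    @Pool.Agent.R612.IS.dclass_definable LangPlus strPlus add_def
  have htame : ∀ (n : ℕ) (s : Set (Fin n → ℤ)), Def L S s →
      Pool.Agent.R612.CO.Tame (fun _ : Unit => α) s := by
    intro n s hs
    let _ : LangCyc.Structure ℤ := strCyc α
    refine Pool.Agent.R612.IS.tame_definable (θ := fun _ : Unit => α) (fun _ => hα)
      (Pool.Agent.R612.CO.dense_unit hα) (L := LangCyc) ?_ ?_ (h2 n s hs)
    · rintro n (_ | _)
      exact (Pool.Agent.R612.CO.isIntForm_var 0).add (Pool.Agent.R612.CO.isIntForm_var 1)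
    · rintro n (_ | _)
      exact Pool.Agent.R612.CO.tame_cyc (θ := fun _ : Unit => α) () 0 1 (by simp)
  have htame' : ∀ s : Set (Unit → ℤ), @Set.Definable ℤ Set.univ L S Unit s →
      Pool.Agent.R612.CO.Tame (fun _ : Unit => α) s := by
    intro s hs
    have h3 := htame 1 _ (hD.reindex (fun _ : Unit => (0 : Fin 1)) hs)
    exact h3.reindex fun _ : Fin 1 => ()
  by_cases hmix : ∃ F : Set ℤ, Pool.Agent.R612.IS.D1
      (fun ι s => @Set.Definable ℤ Set.univ L S ι s) F ∧ Pool.Agent.R612.IS.Mixed α F
  · right
    obtain ⟨F, hF, hF'⟩ := hmix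
    have hC := Pool.Agent.R612.IS.dichotomy hα hD htame' hF hF'
    intro n s
    refine ⟨h2 n s, fun hs => ?_⟩
    let _ : LangCyc.Structure ℤ := strCyc α
    refine hD.definable (L := LangCyc) ?_ ?_ hs
    · rintro n (_ | _)
      exact hD.dfun (κ := Fin 2)
        ((Pool.Agent.R612.CO.isIntForm_var 0).add (Pool.Agent.R612.CO.isIntForm_var 1))
    · rintro n (_ | _)
      exact hC
  · left
    push Not at hmix
    intro n s
    exact ⟨fun hs => Pool.Agent.R612.IS.stepA hα hD hD' h1 hmix htame n s hs, h1 n s⟩

end Pool.Agent.Results.MP_340ce7_lc.NoIntermediate
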